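import Pool.Agent.V8H43.RC.Defs

set_option autoImplicit false
set_option linter.unusedSectionVars false

/-!
# Rectangles in decomposable circuits
-/

namespace Pool.Agent.V8H43.RC

open Finset Pool.Agent.V8H43.GE

variable {m z : ℕ} {C : Circuit m z}

/-- A proof tree for `g` with a gap at `h`. -/
inductive Ctx (C : Circuit m z) (F : Formula m) : Fin z → Fin z → Prop
  | refl (g : Fin z) : Ctx C F g g
  | left (g a b h : Fin z) : C g = Gate.and a b → Ctx C F a h → Accepts C F b → Ctx C F g h
  | right (g a b h : Fin z) : C g = Gate.and a b → Accepts C F a → Ctx C F b h → Ctx C F g h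
  | or (g a h : Fin z) (A : Set (Fin z)) : C g = Gate.or A → a ∈ A → Ctx C F a h → Ctx C F g h

theorem Ctx.accepts {F : Formula m} {g h : Fin z} (hc : Ctx C F g h) :
    Accepts C F h → Accepts C F g := by
  induction hc with
  | refl g => exact id
  | left g a b h e _ hb ih => exact fun hh => Accepts.and g a b e (ih hh) hb
  | right g a b h e ha _ ih => exact fun hh => Accepts.and g a b e ha (ih hh)
  | or g a h A e ha _ ih => exact fun hh => Accepts.or g a A e ha (ih hh)

theorem Ctx.reads {F : Formula m} {g h : Fin z} (hc : Ctx C F g h) {j : Fin m} :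
    Reads C h j → Reads C g j := by
  induction hc with
  | refl g => exact id
  | left g a b h e _ _ ih => exact fun hh => Reads.left g a b j e (ih hh)
  | right g a b h e _ _ ih => exact fun hh => Reads.right g a b j e (ih hh)
  | or g a h A e ha _ ih => exact fun hh => Reads.or g a A j e ha (ih hh)

/-- Acceptance depends on the triples which are read. -/
theorem Accepts.congr {F F' : Formula m} {g : Fin z} (h : Accepts C F g) :
    (∀ j, Reads C g j → F j = F' j) → Accepts C F' g := by
  induction h with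
  | test g j P e hP =>
    intro h
    exact Accepts.test g j P e (by rw [← h j (Reads.test g j P e)]; exact hP)
  | and g a b e _ _ iha ihb =>
    intro h
    exact Accepts.and g a b e (iha fun j hj => h j (Reads.left g a b j e hj))
      (ihb fun j hj => h j (Reads.right g a b j e hj))
  | or g a A e ha _ ih =>
    intro h
    exact Accepts.or g a A e ha (ih fun j hj => h j (Reads.or g a A j e ha hj))

/-- The context depends on the triples which are not read below the gap. -/
theorem Ctx.congr (hC : Decomposable C) {F F' : Formula m} {g h : Fin z} (hc : Ctx C F g h) :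
    (∀ j, ¬ Reads C h j → F j = F' j) → Ctx C F' g h := by
  induction hc with
  | refl g => exact fun _ => Ctx.refl g
  | left g a b h e ha hb ih =>
    intro hF
    refine Ctx.left g a b h e (ih hF) (hb.congr fun j hj => hF j fun hh => ?_)
    exact hC g a b e j ⟨ha.reads hh, hj⟩
  | right g a b h e ha hb ih =>
    intro hF
    refine Ctx.right g a b h e (ha.congr fun j hj => hF j fun hh => ?_) (ih hF)
    exact hC g a b e j ⟨hj, hb.reads hh⟩
  | or g a h A e ha _ ih => exact fun hF => Ctx.or g a h A e ha (ih hF)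

open Classical in
/-- the triples which are read below a gate -/
noncomputable def var (C : Circuit m z) (g : Fin z) : Finset (Fin m) :=
  univ.filter fun j => Reads C g j

theorem mem_var {g : Fin z} {j : Fin m} : j ∈ var C g ↔ Reads C g j := by
  classical
  unfold var
  simp

/-- The two kinds of balanced cuts of a proof tree. -/
theorem exists_cut (m1 : ℕ) (hm1 : 1 ≤ m1) {F : Formula m} {g : Fin z} (h : Accepts C F g) :
    2 * m1 < (var C g).card →
      (∃ u h' : Fin z, Ctx C F g u ∧ Accepts C F h' ∧ (∃ A, C u = Gate.or A ∧ h' ∈ A) ∧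
        2 * m1 < (var C u).card ∧ (var C h').card ≤ 2 * m1) ∨
      (∃ h' : Fin z, Ctx C F g h' ∧ Accepts C F h' ∧ m1 ≤ (var C h').card ∧
        (var C h').card ≤ 2 * m1) := by
  classical
  induction h with
  | test g j P e hP =>
    intro hg
    exfalso
    have h1 : var C g ⊆ {j} := by
      intro i hi
      rw [mem_var] at hi
      rw [mem_singleton]
      cases hi with
      | test _ j' P' e' =>
        rw [e] at e'
        cases e'
        rfl
      | left _ a b _ e' _ => rw [e] at e'; cases e'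
      | right _ a b _ e' _ => rw [e] at e'; cases e'
      | or _ a A _ e' _ _ => rw [e] at e'; cases e'
    have h2 := card_le_card h1
    rw [card_singleton] at h2
    omega
  | and g a b e ha hb iha ihb =>
    intro hg
    by_cases h1 : 2 * m1 < (var C a).card
    · rcases iha h1 with ⟨u, h', h2, h3, h4, h5, h6⟩ | ⟨h', h2, h3, h4, h5⟩
      · exact Or.inl ⟨u, h', Ctx.left g a b u e h2 hb, h3, h4, h5, h6⟩
      · exact Or.inr ⟨h', Ctx.left g a b h' e h2 hb, h3, h4, h5⟩
    · by_cases h1' : 2 * m1 < (var C b).card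
      · rcases ihb h1' with ⟨u, h', h2, h3, h4, h5, h6⟩ | ⟨h', h2, h3, h4, h5⟩
        · exact Or.inl ⟨u, h', Ctx.right g a b u e ha h2, h3, h4, h5, h6⟩
        · exact Or.inr ⟨h', Ctx.right g a b h' e ha h2, h3, h4, h5⟩
      · right
        have h7 : var C g ⊆ var C a ∪ var C b := by
          intro i hi
          rw [mem_var] at hi
          rw [mem_union, mem_var, mem_var]
          cases hi with
          | test _ j' P' e' => rw [e] at e'; cases e'
          | left _ a' b' _ e' h8 => rw [e] at e'; cases e'; exact Or.inl h8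
          | right _ a' b' _ e' h8 => rw [e] at e'; cases e'; exact Or.inr h8
          | or _ a A _ e' _ _ => rw [e] at e'; cases e'
        have h8 := (card_le_card h7).trans (card_union_le _ _)
        by_cases h9 : m1 ≤ (var C a).card
        · exact ⟨a, Ctx.left g a b a e (Ctx.refl a) hb, ha, h9, by omega⟩
        · exact ⟨b, Ctx.right g a b b e ha (Ctx.refl b), hb, by omega, by omega⟩
  | or g a A e haA ha ih =>
    intro hg
    by_cases h1 : 2 * m1 < (var C a).card
    · rcases ih h1 with ⟨u, h', h2, h3, h4, h5, h6⟩ | ⟨h', h2, h3, h4, h5⟩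
      · exact Or.inl ⟨u, h', Ctx.or g a u A e haA h2, h3, h4, h5, h6⟩
      · exact Or.inr ⟨h', Ctx.or g a h' A e haA h2, h3, h4, h5⟩
    · exact Or.inl ⟨g, a, Ctx.refl g, ha, ⟨A, e, haA⟩, hg, not_lt.1 h1⟩

open Classical in
/-- the formula which agrees with `F` on `S` and with `F'` elsewhere -/
noncomputable def mix (S : Finset (Fin m)) (F F' : Formula m) : Formula m :=
  fun j => if j ∈ S then F j else F' j

/-- A rectangle with respect to the partition into `S` and its complement. -/
def IsRect (S : Finset (Fin m)) (R : Set (Formula m)) : Prop :=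
  ∀ F ∈ R, ∀ F' ∈ R, mix S F F' ∈ R

open Classical in
/-- The accepted formulas are covered by few balanced rectangles of accepted formulas. -/
theorem exists_cover (hC : Decomposable C) (root : Fin z) (m1 : ℕ) (hm1 : 1 ≤ m1)
    (hm : m = 3 * m1) :
    ∃ (S : (Fin z × Fin z) ⊕ Option (Fin z) → Finset (Fin m))
      (R : (Fin z × Fin z) ⊕ Option (Fin z) → Set (Formula m)),
      (∀ p, m1 ≤ (S p).card ∧ (S p).card ≤ 2 * m1) ∧ (∀ p, IsRect (S p) (R p)) ∧
      (∀ p, ∀ F ∈ R p, Accepts C F root) ∧ ∀ F, Accepts C F root → ∃ p, F ∈ R p := by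
  -- the partitions
  have hS1 : ∀ u h : Fin z, ∃ S : Finset (Fin m), (m1 ≤ S.card ∧ S.card ≤ 2 * m1) ∧
      (2 * m1 < (var C u).card → (var C h).card ≤ 2 * m1 → var C h ⊆ var C u →
        var C h ⊆ S ∧ S ⊆ var C u) := by
    intro u h
    by_cases hc : 2 * m1 < (var C u).card ∧ (var C h).card ≤ 2 * m1 ∧ var C h ⊆ var C u
    · obtain ⟨S, h1, h2, h3⟩ := exists_subsuperset_card_eq hc.2.2 hc.2.1 hc.1.le
      exact ⟨S, ⟨by omega, by omega⟩, fun _ _ _ => ⟨h1, h2⟩⟩
    · obtain ⟨S, -, hS⟩ := exists_subset_card_eq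
        (s := (univ : Finset (Fin m))) (n := m1) (by rw [card_univ, Fintype.card_fin]; omega)
      exact ⟨S, ⟨by omega, by omega⟩, fun a b c => absurd ⟨a, b, c⟩ hc⟩
  have hS2 : ∀ h : Fin z, ∃ S : Finset (Fin m), (m1 ≤ S.card ∧ S.card ≤ 2 * m1) ∧
      (m1 ≤ (var C h).card → (var C h).card ≤ 2 * m1 → S = var C h) := by
    intro h
    by_cases hc : m1 ≤ (var C h).card ∧ (var C h).card ≤ 2 * m1
    · exact ⟨var C h, hc, fun _ _ => rfl⟩
    · obtain ⟨S, -, hS⟩ := exists_subset_card_eq
        (s := (univ : Finset (Fin m))) (n := m1) (by rw [card_univ, Fintype.card_fin]; omega)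
      exact ⟨S, ⟨by omega, by omega⟩, fun a b => absurd ⟨a, b⟩ hc⟩
  have hS3 : ∃ S : Finset (Fin m), (m1 ≤ S.card ∧ S.card ≤ 2 * m1) ∧
      ((var C root).card ≤ 2 * m1 → var C root ⊆ S) := by
    by_cases hc : (var C root).card ≤ 2 * m1
    · obtain ⟨S, h1, h2, h3⟩ := exists_subsuperset_card_eq (subset_univ (var C root)) hc
        (by rw [card_univ, Fintype.card_fin]; omega)
      exact ⟨S, ⟨by omega, by omega⟩, fun _ => h1⟩
    · obtain ⟨S, -, hS⟩ := exists_subset_card_eq
        (s := (univ : Finset (Fin m))) (n := m1) (by rw [card_univ, Fintype.card_fin]; omega)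
      exact ⟨S, ⟨by omega, by omega⟩, fun a => absurd a hc⟩
  choose S1 hS1a hS1b using hS1
  choose S2 hS2a hS2b using hS2
  obtain ⟨S3, hS3a, hS3b⟩ := hS3
  obtain ⟨S, hS⟩ : ∃ S : (Fin z × Fin z) ⊕ Option (Fin z) → Finset (Fin m), S = fun p =>
      match p with
      | .inl (u, h) => S1 u h
      | .inr (some h) => S2 h
      | .inr none => S3 := ⟨_, rfl⟩
  obtain ⟨R, hR⟩ : ∃ R : (Fin z × Fin z) ⊕ Option (Fin z) → Set (Formula m), R = fun p =>
      match p with
      | .inl (u, h) => {F | Ctx C F root u ∧ Accepts C F h ∧ (∃ A, C u = Gate.or A ∧ h ∈ A) ∧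
          2 * m1 < (var C u).card ∧ (var C h).card ≤ 2 * m1}
      | .inr (some h) => {F | Ctx C F root h ∧ Accepts C F h ∧ m1 ≤ (var C h).card ∧
          (var C h).card ≤ 2 * m1}
      | .inr none => {F | Accepts C F root ∧ (var C root).card ≤ 2 * m1} := ⟨_, rfl⟩
  refine ⟨S, R, ?_, ?_, ?_, ?_⟩
  · rintro (⟨u, h⟩ | ⟨_ | h⟩)
    · rw [hS]; exact hS1a u h
    · rw [hS]; exact hS3a
    · rw [hS]; exact hS2a h
  · rintro (⟨u, h⟩ | ⟨_ | h⟩)
    · rw [hS, hR]
      rintro F ⟨g1, g2, ⟨A, g3, g3'⟩, g4, g5⟩ F' ⟨g1', g2', -, -, -⟩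
      have hsub : var C h ⊆ var C u := by
        intro j hj
        rw [mem_var] at hj ⊢
        exact Reads.or u h A j g3 g3' hj
      obtain ⟨k1, k2⟩ := hS1b u h g4 g5 hsub
      refine ⟨g1'.congr hC fun j hj => ?_, g2.congr fun j hj => ?_, ⟨A, g3, g3'⟩, g4, g5⟩
      · show F' j = if j ∈ S1 u h then F j else F' j
        rw [if_neg fun h' => hj (mem_var.1 (k2 h'))]
      · show F j = if j ∈ S1 u h then F j else F' j
        rw [if_pos (k1 (mem_var.2 hj))]
    · rw [hS, hR]
      rintro F ⟨g1, g2⟩ F' ⟨g1', -⟩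
      refine ⟨g1.congr fun j hj => ?_, g2⟩
      show F j = if j ∈ S3 then F j else F' j
      rw [if_pos (hS3b g2 (mem_var.2 hj))]
    · rw [hS, hR]
      rintro F ⟨g1, g2, g4, g5⟩ F' ⟨g1', g2', -, -⟩
      have k1 := hS2b h g4 g5
      refine ⟨g1'.congr hC fun j hj => ?_, g2.congr fun j hj => ?_, g4, g5⟩
      · show F' j = if j ∈ S2 h then F j else F' j
        rw [k1, if_neg fun h' => hj (mem_var.1 h')]
      · show F j = if j ∈ S2 h then F j else F' j
        rw [k1, if_pos (mem_var.2 hj)]
  · rintro (⟨u, h⟩ | ⟨_ | h⟩)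
    · rw [hR]
      rintro F ⟨g1, g2, ⟨A, g3, g3'⟩, -, -⟩
      exact g1.accepts (Accepts.or u h A g3 g3' g2)
    · rw [hR]
      rintro F ⟨g1, -⟩
      exact g1
    · rw [hR]
      rintro F ⟨g1, g2, -, -⟩
      exact g1.accepts g2
  · intro F hF
    by_cases hv : 2 * m1 < (var C root).card
    · rcases exists_cut m1 hm1 hF hv with ⟨u, h', h2, h3, h4, h5, h6⟩ | ⟨h', h2, h3, h4, h5⟩
      · exact ⟨.inl (u, h'), by rw [hR]; exact ⟨h2, h3, h4, h5, h6⟩⟩
      · exact ⟨.inr (some h'), by rw [hR]; exact ⟨h2, h3, h4, h5⟩⟩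
    · exact ⟨.inr none, by rw [hR]; exact ⟨hF, not_lt.1 hv⟩⟩

end Pool.Agent.V8H43.RC
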