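import Pool.Agent.V8H43.GE.Defs

set_option autoImplicit false

/-!
# Decomposable circuits which read the clauses on the triples
-/

namespace Pool.Agent.V8H43.RC

open Pool.Agent.V8H43.GE

/-- A gate of a circuit with `z` gates: any condition on the set of the clauses on one triple `j`; the
conjunction of two gates; the disjunction of any set of gates. -/
inductive Gate (m z : ℕ) : Type
  | test : (j : Fin m) → Set (Finset (Fin 3 → ZMod 2)) → Gate m z
  | and : Fin z → Fin z → Gate m z
  | or : Set (Fin z) → Gate m z

/-- A circuit with `z` gates. -/
abbrev Circuit (m z : ℕ) : Type := Fin z → Gate m z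

/-- The gate `g` accepts the formula `F`: there is a finite proof tree. -/
inductive Accepts {m z : ℕ} (C : Circuit m z) (F : Formula m) : Fin z → Prop
  | test (g : Fin z) (j : Fin m) (P : Set (Finset (Fin 3 → ZMod 2))) :
      C g = Gate.test j P → F j ∈ P → Accepts C F g
  | and (g a b : Fin z) : C g = Gate.and a b → Accepts C F a → Accepts C F b → Accepts C F g
  | or (g a : Fin z) (A : Set (Fin z)) : C g = Gate.or A → a ∈ A → Accepts C F a → Accepts C F g

/-- The clauses on the triple `j` are read by a gate below `g` (or by `g`). -/
inductive Reads {m z : ℕ} (C : Circuit m z) : Fin z → Fin m → Prop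
  | test (g : Fin z) (j : Fin m) (P : Set (Finset (Fin 3 → ZMod 2))) :
      C g = Gate.test j P → Reads C g j
  | left (g a b : Fin z) (j : Fin m) : C g = Gate.and a b → Reads C a j → Reads C g j
  | right (g a b : Fin z) (j : Fin m) : C g = Gate.and a b → Reads C b j → Reads C g j
  | or (g a : Fin z) (A : Set (Fin z)) (j : Fin m) : C g = Gate.or A → a ∈ A → Reads C a j →
      Reads C g j

/-- The two inputs of a conjunction never read the same triple. -/
def Decomposable {m z : ℕ} (C : Circuit m z) : Prop :=
  ∀ g a b : Fin z, C g = Gate.and a b → ∀ j, ¬ (Reads C a j ∧ Reads C b j)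

end Pool.Agent.V8H43.RC
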