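import Pool.Agent.V8H43.RC.Lin
import Pool.Agent.V8H43.GE.Unif

set_option autoImplicit false
set_option linter.unusedSectionVars false

/-!
# A large set of vectors is almost orthogonal to a set of small rank only
-/

namespace Pool.Agent.V8H43.RC

open Finset
open Pool.Agent.V8H43.GE (sgn sgn_add sgn_zero sgn_sum)

variable {n : ℕ}

theorem sum_sgn {u : Fin n → ZMod 2} (hu : u ≠ 0) : ∑ y : Fin n → ZMod 2, sgn (u ⬝ᵥ y) = 0 := by
  classical
  have h1 : ∀ y : Fin n → ZMod 2, sgn (u ⬝ᵥ y) = ∏ i, sgn (u i * y i) := by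
    intro y
    unfold dotProduct
    rw [sgn_sum]
  simp only [h1]
  have h2 := Finset.prod_univ_sum (fun _ : Fin n => (univ : Finset (ZMod 2)))
    (fun i b => sgn (u i * b))
  rw [Fintype.piFinset_univ] at h2
  rw [← h2]
  obtain ⟨i, hi⟩ : ∃ i, u i ≠ 0 := by
    by_contra hcon
    push Not at hcon
    exact hu (funext hcon)
  refine prod_eq_zero (mem_univ i) ?_
  have h3 : u i = 1 := by
    have : ∀ a : ZMod 2, a ≠ 0 → a = 1 := by decide
    exact this _ hi
  have h4 : (univ : Finset (ZMod 2)) = {0, 1} := by decide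
  rw [h3, h4, sum_pair (by decide)]
  simp only [one_mul]
  unfold sgn
  rw [if_pos rfl, if_neg (by decide)]
  norm_num

open Classical in
/-- The number of the vectors with given products with independent vectors. -/
theorem card_pattern (b : Finset (Fin n → ZMod 2))
    (hb : ∀ J ⊆ b, J.Nonempty → ∑ w ∈ J, w ≠ 0) (T : Finset (Fin n → ZMod 2)) (hT : T ⊆ b) :
    ((univ.filter fun y : Fin n → ZMod 2 => b.filter (fun w => w ⬝ᵥ y ≠ 0) = T).card : ℝ) *
      2 ^ b.card = 2 ^ n := by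
  have hz : ∀ a : ZMod 2, sgn a = if a = 0 then 1 else -1 := fun a => rfl
  have h1 : ((univ.filter fun y : Fin n → ZMod 2 => b.filter (fun w => w ⬝ᵥ y ≠ 0) = T).card : ℝ) =
      ∑ y : Fin n → ZMod 2, ∏ w ∈ b, ((1 + sgn (w ⬝ᵥ y) * (if w ∈ T then -1 else 1)) / 2) := by
    rw [card_filter]
    push_cast
    refine sum_congr rfl fun y _ => ?_
    by_cases h : b.filter (fun w => w ⬝ᵥ y ≠ 0) = T
    · rw [if_pos h]
      refine (prod_eq_one fun w hw => ?_).symm
      rw [hz]
      by_cases hwy : w ⬝ᵥ y = 0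
      · have hwT : w ∉ T := by
          rw [← h, mem_filter]
          exact fun h' => h'.2 hwy
        rw [if_pos hwy, if_neg hwT]
        norm_num
      · have hwT : w ∈ T := by
          rw [← h, mem_filter]
          exact ⟨hw, hwy⟩
        rw [if_neg hwy, if_pos hwT]
        norm_num
    · rw [if_neg h]
      obtain ⟨w, hw, hne⟩ : ∃ w ∈ b, ¬ (w ⬝ᵥ y ≠ 0 ↔ w ∈ T) := by
        by_contra hcon
        push Not at hcon
        refine h ?_
        ext w
        rw [mem_filter]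
        constructor
        · rintro ⟨h2, h3⟩
          exact (hcon w h2).1 h3
        · intro h2
          exact ⟨hT h2, (hcon w (hT h2)).2 h2⟩
      refine (prod_eq_zero hw ?_).symm
      rw [hz]
      by_cases hwy : w ⬝ᵥ y = 0
      · have hwT : w ∈ T := by
          by_contra h2
          exact hne ⟨fun h3 => absurd hwy h3, fun h3 => absurd h3 h2⟩
        rw [if_pos hwy, if_pos hwT]
        norm_num
      · have hwT : w ∉ T := fun h2 => hne ⟨fun _ => h2, fun _ => hwy⟩
        rw [if_neg hwy, if_neg hwT]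
        norm_num
  rw [h1]
  have h2 : ∀ y : Fin n → ZMod 2,
      ∏ w ∈ b, ((1 + sgn (w ⬝ᵥ y) * (if w ∈ T then (-1 : ℝ) else 1)) / 2) =
      (∏ w ∈ b, (1 + sgn (w ⬝ᵥ y) * (if w ∈ T then -1 else 1))) / 2 ^ b.card := by
    intro y
    rw [prod_div_distrib, prod_const]
  rw [sum_congr rfl fun y _ => h2 y, ← sum_div, div_mul_cancel₀ _ (by positivity)]
  have h3 : ∀ y : Fin n → ZMod 2, ∏ w ∈ b, (1 + sgn (w ⬝ᵥ y) * (if w ∈ T then (-1 : ℝ) else 1)) =
      ∑ J ∈ b.powerset, sgn ((∑ w ∈ J, w) ⬝ᵥ y) * ∏ w ∈ J, (if w ∈ T then (-1 : ℝ) else 1) := by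
    intro y
    rw [prod_one_add]
    refine sum_congr rfl fun J _ => ?_
    rw [prod_mul_distrib, sum_dotProduct, sgn_sum]
  rw [sum_congr rfl fun y _ => h3 y, sum_comm]
  simp only [← sum_mul]
  rw [sum_eq_single ∅]
  · simp [sgn_zero]
  · intro J hJ hne
    rw [mem_powerset] at hJ
    rw [sum_sgn (hb J hJ (nonempty_iff_ne_empty.2 hne)), zero_mul]
  · intro h
    exact absurd (empty_mem_powerset b) h

open Classical in
/-- The number of the small subsets. -/
theorem card_small {α : Type} (b : Finset α) :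
    (((b.powerset.filter fun T => 1024 * T.card ≤ b.card).card : ℕ) : ℝ) ≤
      (2 : ℝ) ^ (12 / 1024 * (b.card : ℝ)) := by
  have h1 : (((b.powerset.filter fun T => 1024 * T.card ≤ b.card).card : ℕ) : ℝ) ≤
      ∑ T ∈ b.powerset, (2 : ℝ) ^ (10 / 1024 * (b.card : ℝ)) * (1 / 1024) ^ T.card := by
    rw [card_filter]
    push_cast
    refine sum_le_sum fun T _ => ?_
    split_ifs with h
    · have h2 : (1024 : ℝ) * T.card ≤ b.card := by exact_mod_cast h
      have h3 : ((1 : ℝ) / 1024) ^ T.card = (2 : ℝ) ^ (-(10 * (T.card : ℝ))) := by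
        rw [Real.rpow_neg (by norm_num), mul_comm, Real.rpow_mul (by norm_num),
          show ((2 : ℝ) ^ (T.card : ℝ)) ^ (10 : ℝ) = ((2 : ℝ) ^ (10 : ℝ)) ^ (T.card : ℝ) by
            rw [← Real.rpow_mul (by norm_num), ← Real.rpow_mul (by norm_num), mul_comm]]
        rw [Real.rpow_natCast, one_div, inv_pow]
        congr 2
        rw [show (10 : ℝ) = ((10 : ℕ) : ℝ) by norm_num, Real.rpow_natCast]
        norm_num
      rw [h3, ← Real.rpow_add (by norm_num)]
      exact Real.one_le_rpow (by norm_num) (by linarith)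
    · positivity
  refine h1.trans ?_
  rw [← mul_sum]
  have h4 : ∑ T ∈ b.powerset, ((1 : ℝ) / 1024) ^ T.card = (1 + 1 / 1024) ^ b.card := by
    have h5 := Finset.prod_one_add (s := b) (f := fun _ : α => (1 : ℝ) / 1024)
    simp only [prod_const] at h5
    exact h5.symm
  rw [h4]
  have h6 : (1 + (1 : ℝ) / 1024) ^ b.card ≤ (2 : ℝ) ^ (2 / 1024 * (b.card : ℝ)) := by
    have h7 : 1 + (1 : ℝ) / 1024 ≤ (2 : ℝ) ^ ((2 : ℝ) / 1024) := by
      rw [Real.rpow_def_of_pos (by norm_num)]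
      have h8 := Real.add_one_le_exp (Real.log 2 * (2 / 1024))
      have h9 := Real.log_two_gt_d9
      linarith
    rw [Real.rpow_mul (by norm_num), Real.rpow_natCast]
    exact pow_le_pow_left₀ (by norm_num) h7 _
  calc (2 : ℝ) ^ (10 / 1024 * (b.card : ℝ)) * (1 + 1 / 1024) ^ b.card
      ≤ (2 : ℝ) ^ (10 / 1024 * (b.card : ℝ)) * (2 : ℝ) ^ (2 / 1024 * (b.card : ℝ)) :=
        mul_le_mul_of_nonneg_left h6 (by positivity)
    _ = _ := by
      rw [← Real.rpow_add (by norm_num)]
      congr 1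
      ring

open Classical in
/-- A set of vectors which is almost orthogonal to independent vectors is small. -/
theorem card_le_of_orth (N : Finset (Fin n → ZMod 2)) (b : Finset (Fin n → ZMod 2))
    (hb : ∀ J ⊆ b, J.Nonempty → ∑ w ∈ J, w ≠ 0)
    (h : ∀ w ∈ b, 2048 * (N.filter fun y => w ⬝ᵥ y ≠ 0).card ≤ N.card) :
    (N.card : ℝ) ≤ (2 : ℝ) ^ (1 + n - 1012 / 1024 * (b.card : ℝ)) := by
  obtain ⟨M, hM⟩ : ∃ M : Finset (Fin n → ZMod 2),
      M = N.filter fun y => 1024 * (b.filter fun w => w ⬝ᵥ y ≠ 0).card ≤ b.card := ⟨_, rfl⟩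
  -- at least half of the vectors are in `M`
  have hhalf : N.card ≤ 2 * M.card := by
    have h1 : ∑ y ∈ N, 2048 * (b.filter fun w => w ⬝ᵥ y ≠ 0).card ≤ b.card * N.card := by
      calc ∑ y ∈ N, 2048 * (b.filter fun w => w ⬝ᵥ y ≠ 0).card
          = ∑ w ∈ b, 2048 * (N.filter fun y => w ⬝ᵥ y ≠ 0).card := by
            simp only [← mul_sum, card_filter]
            rw [sum_comm]
        _ ≤ ∑ _w ∈ b, N.card := sum_le_sum h
        _ = b.card * N.card := by rw [sum_const, smul_eq_mul]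
    have h2 : ∑ y ∈ N \ M, 2 * b.card + 2 * (N \ M).card ≤
        ∑ y ∈ N \ M, 2048 * (b.filter fun w => w ⬝ᵥ y ≠ 0).card := by
      have h3 : ∑ y ∈ N \ M, 2 * b.card + 2 * (N \ M).card = ∑ y ∈ N \ M, (2 * b.card + 2) := by
        rw [sum_add_distrib, sum_const, sum_const, smul_eq_mul, smul_eq_mul]
        ring
      rw [h3]
      refine sum_le_sum fun y hy => ?_
      rw [mem_sdiff, hM, mem_filter] at hy
      have h4 : ¬ 1024 * (b.filter fun w => w ⬝ᵥ y ≠ 0).card ≤ b.card := fun h' => hy.2 ⟨hy.1, h'⟩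
      omega
    have h3 : ∑ y ∈ N \ M, 2048 * (b.filter fun w => w ⬝ᵥ y ≠ 0).card ≤
        ∑ y ∈ N, 2048 * (b.filter fun w => w ⬝ᵥ y ≠ 0).card :=
      sum_le_sum_of_subset sdiff_subset
    rw [sum_const, smul_eq_mul] at h2
    have hMN : M ⊆ N := by rw [hM]; exact filter_subset _ _
    have h4 := card_sdiff_add_card_eq_card hMN
    by_contra hcon
    push Not at hcon
    have h5 : N.card < 2 * (N \ M).card := by omega
    have h6 : b.card * N.card ≤ b.card * (2 * (N \ M).card) := Nat.mul_le_mul_left _ h5.le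
    have h7 : (N \ M).card * (2 * b.card) = b.card * (2 * (N \ M).card) := by ring
    omega
  -- count `M`
  have hcount : (M.card : ℝ) ≤ ∑ T ∈ b.powerset.filter (fun T => 1024 * T.card ≤ b.card),
      ((univ.filter fun y : Fin n → ZMod 2 => b.filter (fun w => w ⬝ᵥ y ≠ 0) = T).card : ℝ) := by
    have h1 : M ⊆ (b.powerset.filter (fun T => 1024 * T.card ≤ b.card)).biUnion fun T =>
        univ.filter fun y : Fin n → ZMod 2 => b.filter (fun w => w ⬝ᵥ y ≠ 0) = T := by
      intro y hy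
      rw [hM, mem_filter] at hy
      rw [mem_biUnion]
      refine ⟨b.filter (fun w => w ⬝ᵥ y ≠ 0), mem_filter.2 ⟨mem_powerset.2 (filter_subset _ _), hy.2⟩,
        mem_filter.2 ⟨mem_univ _, rfl⟩⟩
    have h2 := (card_le_card h1).trans card_biUnion_le
    exact_mod_cast h2
  have h2b : (0 : ℝ) < 2 ^ b.card := by positivity
  have hM2 : (M.card : ℝ) * 2 ^ b.card ≤ (2 : ℝ) ^ (12 / 1024 * (b.card : ℝ)) * 2 ^ n := by
    calc (M.card : ℝ) * 2 ^ b.card ≤
        (∑ T ∈ b.powerset.filter (fun T => 1024 * T.card ≤ b.card),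
          ((univ.filter fun y : Fin n → ZMod 2 => b.filter (fun w => w ⬝ᵥ y ≠ 0) = T).card : ℝ)) *
          2 ^ b.card := mul_le_mul_of_nonneg_right hcount h2b.le
      _ = ∑ T ∈ b.powerset.filter (fun T => 1024 * T.card ≤ b.card), (2 : ℝ) ^ n := by
        rw [sum_mul]
        refine sum_congr rfl fun T hT => ?_
        exact card_pattern b hb T (mem_powerset.1 (mem_filter.1 hT).1)
      _ = ((b.powerset.filter (fun T => 1024 * T.card ≤ b.card)).card : ℝ) * 2 ^ n := by
        rw [sum_const, nsmul_eq_mul]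
      _ ≤ _ := mul_le_mul_of_nonneg_right (card_small b) (by positivity)
  have h3 : (N.card : ℝ) ≤ 2 * M.card := by exact_mod_cast hhalf
  have h4 : (2 : ℝ) ^ (1 + n - 1012 / 1024 * (b.card : ℝ)) * 2 ^ b.card =
      2 * ((2 : ℝ) ^ (12 / 1024 * (b.card : ℝ)) * 2 ^ n) := by
    rw [← Real.rpow_natCast 2 b.card, ← Real.rpow_natCast 2 n, ← Real.rpow_add (by norm_num),
      ← Real.rpow_add (by norm_num)]
    nth_rewrite 2 [show (2 : ℝ) = (2 : ℝ) ^ (1 : ℝ) by rw [Real.rpow_one]]
    rw [← Real.rpow_add (by norm_num)]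
    congr 1
    ring
  refine le_of_mul_le_mul_right ?_ h2b
  rw [h4]
  nlinarith

open Classical in
/-- The rank of the triples which are almost orthogonal to a set of vectors. -/
theorem rank_bound (N : Finset (Fin n → ZMod 2)) (G : Finset (Fin 3 → Fin n))
    (h : ∀ a ∈ G, 2048 * (N.filter fun y => ev a y ≠ 0).card ≤ N.card) :
    ∃ R : ℕ, G.card ≤ R ^ 3 + 3 * n ^ 2 ∧
      (N.card : ℝ) ≤ (2 : ℝ) ^ (1 + n - 1012 / 1024 * (R : ℝ)) := by
  obtain ⟨b, hbs, hspan, hli⟩ := exists_linearIndependent (ZMod 2)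
    ((vec : (Fin 3 → Fin n) → Fin n → ZMod 2) '' (G : Set (Fin 3 → Fin n)))
  have hfin : b.Finite := Set.toFinite b
  obtain ⟨B, hB⟩ : ∃ B : Finset (Fin n → ZMod 2), B = hfin.toFinset := ⟨_, rfl⟩
  have hBb : ∀ w, w ∈ B ↔ w ∈ b := fun w => by rw [hB]; exact hfin.mem_toFinset
  have hrank : Module.finrank (ZMod 2) (Submodule.span (ZMod 2)
      ((vec : (Fin 3 → Fin n) → Fin n → ZMod 2) '' (G : Set (Fin 3 → Fin n)))) = B.card := by
    rw [← hspan]
    have hfb : Fintype b := hfin.fintype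
    have h1 := finrank_span_eq_card hli
    rw [Subtype.range_coe] at h1
    rw [h1, hB, Set.Finite.card_toFinset]
  refine ⟨B.card, ?_, ?_⟩
  · rw [← hrank]
    refine card_vec_le _ G fun a ha => Submodule.subset_span ⟨a, ha, rfl⟩
  · refine card_le_of_orth N B (fun J hJ hne => ?_) (fun w hw => ?_)
    · intro h0
      have h1 := (linearIndependent_subtype_iff.1 hli)
      rw [linearIndepOn_iff'] at h1
      have h2 := h1 J (fun _ => 1) (fun w hw => (hBb w).1 (hJ hw)) (by
        simpa using h0)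
      obtain ⟨w, hw⟩ := hne
      exact one_ne_zero (h2 w hw)
    · obtain ⟨a, ha, rfl⟩ := hbs ((hBb w).1 hw)
      have := h a ha
      simp only [vec_dot]
      exact this

end Pool.Agent.V8H43.RC
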