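import Pool.Agent.V8H43.RC.Rand
import Pool.Agent.V8H43.RC.Circ
import Pool.Agent.V8H43.GE.Inst

set_option autoImplicit false
set_option linter.unusedSectionVars false

/-!
# Rectangles of formulas which are not far from satisfiable are small
-/

namespace Pool.Agent.V8H43.RC

open Finset Pool.Agent.V8H43.GE

variable {n m : ℕ}

/-- the number of vectors -/
def t3 : ℕ := 3 * tt

/-- The triples hit all sets of orthogonal triples rarely. -/
def Spread (v : Fin m → Fin 3 → Fin n) : Prop :=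
  (∀ j, Function.Injective (v j)) ∧ ∀ Y : Finset (Fin n → ZMod 2), Y.Nonempty → Y.card ≤ t3 →
    ((orth Y).card : ℝ) ≤ 4 / 25 * (inj n).card →
    4 * (univ.filter fun j => ∀ y ∈ Y, ev (v j) y = 0).card < m

theorem exists_spread (hn : 2000 ≤ n) :
    ∃ v : Fin (3 * (32 * (tt * n))) → Fin 3 → Fin n, Spread v := by
  classical
  obtain ⟨v, hv1, hv2⟩ := exists_triples hn t3 (by unfold t3 tt; norm_num)
  have hm : 4 * (8 * (t3 * n)) = 3 * (32 * (tt * n)) := by unfold t3; ring
  rw [← hm]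
  refine ⟨v, fun j => ?_, fun Y hY hYt hO => ?_⟩
  · have := hv1 j
    unfold inj at this
    exact (mem_filter.1 this).2
  · obtain ⟨y, hy⟩ : ∃ y : Fin t3 → Fin n → ZMod 2, univ.image y = Y := by
      obtain ⟨y0, hy0⟩ := hY
      refine ⟨fun i => if h : i.1 < Y.card then (Y.equivFin.symm ⟨i.1, h⟩).1 else y0, ?_⟩
      ext a
      rw [mem_image]
      constructor
      · rintro ⟨i, -, rfl⟩
        split_ifs with h
        · exact (Y.equivFin.symm ⟨i.1, h⟩).2
        · exact hy0
      · intro ha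
        have h1 := (Y.equivFin ⟨a, ha⟩).2
        refine ⟨⟨(Y.equivFin ⟨a, ha⟩).1, lt_of_lt_of_le h1 hYt⟩, mem_univ _, ?_⟩
        rw [dif_pos h1]
        simp
    have h1 := hv2 y (by rw [hy]; exact hO)
    rw [hy] at h1
    have h2 : (univ.filter fun j => ∀ y ∈ Y, ev (v j) y = 0) = univ.filter fun j => v j ∈ orth Y := by
      ext j
      rw [mem_filter, mem_filter]
      unfold orth
      rw [mem_filter]
      exact ⟨fun h => ⟨h.1, hv1 j, h.2⟩, fun h => ⟨h.1, h.2.2⟩⟩
    rw [h2]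
    omega

/-- the vectors whose equations are almost all satisfied on `S` -/
def near (v : Fin m → Fin 3 → Fin n) (S : Finset (Fin m)) : Finset (Fin n → ZMod 2) :=
  univ.filter fun y => 24 * t3 * (S.filter fun j => ev (v j) y ≠ 0).card ≤ m

theorem card_near (hn : 2000 ≤ n) (v : Fin m → Fin 3 → Fin n) (hv : Spread v)
    (S : Finset (Fin m)) (hS : m ≤ 3 * S.card) :
    ((near v S).card : ℝ) ≤ (2 : ℝ) ^ (49 / 100 * (n : ℝ)) := by
  classical
  by_contra hcon
  push Not at hcon
  obtain ⟨Y, hYN, hYt, hO⟩ := greedy hn (near v S) hcon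
  have hinj : (0 : ℝ) < (inj n).card := by
    have h1 := (card_inj (n := n)).2
    have hn0 : (2000 : ℝ) ≤ n := by exact_mod_cast hn
    have h3 : (2000 : ℝ) * (n : ℝ) ^ 2 ≤ (n : ℝ) ^ 3 := by
      have : (n : ℝ) ^ 3 = n * (n : ℝ) ^ 2 := by ring
      rw [this]
      exact mul_le_mul_of_nonneg_right hn0 (by positivity)
    have h4 : (0 : ℝ) < (n : ℝ) ^ 2 := by positivity
    linarith
  have hYne : Y.Nonempty := by
    rw [nonempty_iff_ne_empty]
    rintro rfl
    have h1 : orth (∅ : Finset (Fin n → ZMod 2)) = inj n := by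
      unfold orth
      rw [filter_true_of_mem]
      intro a _ y hy
      exact absurd hy (notMem_empty y)
    rw [h1] at hO
    linarith
  have htt : tt ≤ t3 := by unfold t3; omega
  have h1 := hv.2 Y hYne (hYt.trans htt) hO
  obtain ⟨good, hgood⟩ : ∃ good, good = S.filter fun j => ∀ y ∈ Y, ev (v j) y = 0 := ⟨_, rfl⟩
  obtain ⟨bad, hbad⟩ : ∃ bad, bad = S.filter fun j => ¬ ∀ y ∈ Y, ev (v j) y = 0 := ⟨_, rfl⟩
  have h2 : good.card ≤ (univ.filter fun j => ∀ y ∈ Y, ev (v j) y = 0).card := by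
    rw [hgood]
    exact card_le_card (filter_subset_filter _ (subset_univ S))
  have h3 : good.card + bad.card = S.card := by
    rw [hgood, hbad]
    exact card_filter_add_card_filter_not _
  have h4 : bad.card ≤ ∑ y ∈ Y, (S.filter fun j => ev (v j) y ≠ 0).card := by
    have h5 : bad ⊆ Y.biUnion fun y => S.filter fun j => ev (v j) y ≠ 0 := by
      intro j hj
      rw [hbad, mem_filter] at hj
      obtain ⟨hjS, hj⟩ := hj
      push Not at hj
      obtain ⟨y, hy, hne⟩ := hj
      exact mem_biUnion.2 ⟨y, hy, mem_filter.2 ⟨hjS, hne⟩⟩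
    exact (card_le_card h5).trans card_biUnion_le
  have h5 : 24 * t3 * bad.card ≤ t3 * m := by
    calc 24 * t3 * bad.card ≤ 24 * t3 * ∑ y ∈ Y, (S.filter fun j => ev (v j) y ≠ 0).card :=
          Nat.mul_le_mul_left _ h4
      _ = ∑ y ∈ Y, 24 * t3 * (S.filter fun j => ev (v j) y ≠ 0).card := by rw [mul_sum]
      _ ≤ ∑ _y ∈ Y, m := by
          refine sum_le_sum fun y hy => ?_
          have := hYN hy
          unfold near at this
          exact (mem_filter.1 this).2
      _ = Y.card * m := by rw [sum_const, smul_eq_mul]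
      _ ≤ t3 * m := Nat.mul_le_mul_right _ (hYt.trans htt)
  have ht0 : 0 < t3 := by unfold t3 tt; norm_num
  have h6 : 24 * bad.card ≤ m := by
    refine Nat.le_of_mul_le_mul_left ?_ ht0
    calc t3 * (24 * bad.card) = 24 * t3 * bad.card := by ring
      _ ≤ t3 * m := h5
  omega

open Classical in
/-- Rectangles are small. -/
theorem card_rect (v : Fin m → Fin 3 → Fin n) (hm : 0 < m) (S : Finset (Fin m))
    (R : Set (Formula m)) (hR : IsRect S R)
    (hfar : ∀ F ∈ R, ¬ Far v (1 / (96 * t3 : ℝ)) F) :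
    (univ.filter fun x : Fin n → ZMod 2 => xf (word v 0 x) ∈ R).card ≤
      (near v S).card * (near v Sᶜ).card := by
  obtain ⟨X, hX⟩ : ∃ X : Finset (Fin n → ZMod 2),
      X = univ.filter fun x : Fin n → ZMod 2 => xf (word v 0 x) ∈ R := ⟨_, rfl⟩
  rw [← hX]
  rcases X.eq_empty_or_nonempty with h | ⟨x0, hx0⟩
  · rw [h]
    simp
  have ht0 : (0 : ℝ) < t3 := by
    have : 0 < t3 := by unfold t3 tt; norm_num
    exact_mod_cast this
  have hm0 : (0 : ℝ) < m := by exact_mod_cast hm
  rw [← card_product]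
  refine (card_le_card (t := ((near v S) ×ˢ (near v Sᶜ)).image fun p => x0 + p.1 + p.2) ?_).trans
    card_image_le
  intro x hx
  rw [hX, mem_filter] at hx hx0
  have h1 := hR _ hx.2 _ hx0.2
  have h2 : mix S (xf (word v 0 x)) (xf (word v 0 x0)) =
      xf (fun j => if j ∈ S then word v 0 x j else word v 0 x0 j) := by
    funext j
    by_cases hj : j ∈ S
    · simp [mix, xf, hj]
    · simp [mix, xf, hj]
  rw [h2] at h1
  have h3 := hfar _ h1
  unfold Far at h3
  rw [size_xf] at h3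
  push Not at h3
  obtain ⟨x', hx'⟩ := h3 (by omega)
  rw [falsified_xf] at hx'
  have h4 : 24 * t3 * (univ.filter fun j => ∑ l, x' (v j l) ≠
      if j ∈ S then word v 0 x j else word v 0 x0 j).card < m := by
    push_cast at hx'
    have h5 : (1 / (96 * t3 : ℝ)) * (4 * m) = m / (24 * t3) := by
      field_simp
      norm_num
    rw [h5, lt_div_iff₀ (by positivity)] at hx'
    have h6 : ((24 * t3 * (univ.filter fun j => ∑ l, x' (v j l) ≠
      if j ∈ S then word v 0 x j else word v 0 x0 j).card : ℕ) : ℝ) < (m : ℝ) := by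
      push_cast
      linarith
    exact_mod_cast h6
  have hw : ∀ (y : Fin n → ZMod 2) (j : Fin m), word v 0 y j = ev (v j) y := by
    intro y j
    unfold word ev
    simp
  have hadd : ∀ (y y' : Fin n → ZMod 2) (j : Fin m), ev (v j) (y + y') = ev (v j) y + ev (v j) y' := by
    intro y y' j
    unfold ev
    simp only [Pi.add_apply, sum_add_distrib]
  have hne : ∀ a b : ZMod 2, a + b ≠ 0 ↔ a ≠ b := by decide
  rw [mem_image]
  refine ⟨(x' + x, x' + x0), mem_product.2 ⟨?_, ?_⟩, ?_⟩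
  · show x' + x ∈ near v S
    unfold near
    rw [mem_filter]
    refine ⟨mem_univ _, le_trans (Nat.mul_le_mul_left _ (card_le_card ?_)) h4.le⟩
    intro j hj
    rw [mem_filter] at hj ⊢
    refine ⟨mem_univ _, ?_⟩
    rw [if_pos hj.1, hw]
    rw [hadd, hne] at hj
    exact hj.2
  · show x' + x0 ∈ near v Sᶜ
    unfold near
    rw [mem_filter]
    refine ⟨mem_univ _, le_trans (Nat.mul_le_mul_left _ (card_le_card ?_)) h4.le⟩
    intro j hj
    rw [mem_filter] at hj ⊢
    refine ⟨mem_univ _, ?_⟩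
    rw [if_neg (mem_compl.1 hj.1), hw]
    rw [hadd, hne] at hj
    exact hj.2
  · funext i
    show x0 i + (x' i + x i) + (x' i + x0 i) = x i
    have : ∀ a b c : ZMod 2, a + (b + c) + (b + a) = c := by decide
    exact this _ _ _

open Classical in
/-- Covers by rectangles need many members. -/
theorem cover_bound (hn : 2000 ≤ n) (v : Fin m → Fin 3 → Fin n) (hv : Spread v) (hm : 0 < m)
    {κ : Type} [Fintype κ] (S : κ → Finset (Fin m)) (R : κ → Set (Formula m))
    (hS : ∀ p, m ≤ 3 * (S p).card ∧ 3 * (S p).card ≤ 2 * m) (hR : ∀ p, IsRect (S p) (R p))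
    (hfar : ∀ p, ∀ F ∈ R p, ¬ Far v (1 / (96 * t3 : ℝ)) F)
    (hsat : ∀ F, Satisfiable v F → ∃ p, F ∈ R p) :
    (2 : ℝ) ^ ((n : ℝ) / 50) ≤ Fintype.card κ := by
  have h1 : (univ : Finset (Fin n → ZMod 2)) ⊆ (univ : Finset κ).biUnion fun p =>
      univ.filter fun x : Fin n → ZMod 2 => xf (word v 0 x) ∈ R p := by
    intro x _
    obtain ⟨p, hp⟩ := hsat _ (satisfiable_word v x)
    exact mem_biUnion.2 ⟨p, mem_univ p, mem_filter.2 ⟨mem_univ x, hp⟩⟩
  have h2 := (card_le_card h1).trans card_biUnion_le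
  have h3 : ∀ p ∈ (univ : Finset κ),
      (((univ.filter fun x : Fin n → ZMod 2 => xf (word v 0 x) ∈ R p).card : ℕ) : ℝ) ≤
        (2 : ℝ) ^ (49 / 50 * (n : ℝ)) := by
    intro p _
    have h4 := card_rect v hm (S p) (R p) (hR p) (hfar p)
    have h5 := card_near hn v hv (S p) (hS p).1
    have h6 := card_near hn v hv (S p)ᶜ (by
      rw [card_compl, Fintype.card_fin]
      have := (hS p).2
      omega)
    calc (((univ.filter fun x : Fin n → ZMod 2 => xf (word v 0 x) ∈ R p).card : ℕ) : ℝ)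
        ≤ (((near v (S p)).card * (near v (S p)ᶜ).card : ℕ) : ℝ) := by exact_mod_cast h4
      _ = ((near v (S p)).card : ℝ) * ((near v (S p)ᶜ).card : ℝ) := by push_cast; rfl
      _ ≤ (2 : ℝ) ^ (49 / 100 * (n : ℝ)) * (2 : ℝ) ^ (49 / 100 * (n : ℝ)) :=
          mul_le_mul h5 h6 (Nat.cast_nonneg _) (by positivity)
      _ = _ := by
          rw [← Real.rpow_add (by norm_num)]
          congr 1
          ring
  rw [card_univ, Fintype.card_fun, ZMod.card, Fintype.card_fin] at h2
  have h4 : (2 : ℝ) ^ n ≤ ∑ p : κ,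
      (((univ.filter fun x : Fin n → ZMod 2 => xf (word v 0 x) ∈ R p).card : ℕ) : ℝ) := by
    exact_mod_cast h2
  have h5 := h4.trans (sum_le_sum h3)
  rw [sum_const, card_univ, nsmul_eq_mul] at h5
  have h6 : (2 : ℝ) ^ n = (2 : ℝ) ^ ((n : ℝ) / 50) * (2 : ℝ) ^ (49 / 50 * (n : ℝ)) := by
    rw [← Real.rpow_add (by norm_num), ← Real.rpow_natCast]
    congr 1
    ring
  rw [h6] at h5
  exact le_of_mul_le_mul_right h5 (Real.rpow_pos_of_pos (by norm_num) _)

/-- The main theorem. -/
theorem main : ∃ (ε : ℝ) (Δ : ℕ), 0 < ε ∧ ∀ n : ℕ, 2000 ≤ n →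
    ∃ (m : ℕ) (v : Fin m → Fin 3 → Fin n), m ≤ Δ * n ∧ (∀ j, Function.Injective (v j)) ∧
      (∀ (q : ℕ) (S : Fin q → Finset (Fin m)) (R : Fin q → Set (Formula m)),
        (∀ p, m ≤ 3 * (S p).card ∧ 3 * (S p).card ≤ 2 * m) → (∀ p, IsRect (S p) (R p)) →
        (∀ F, Satisfiable v F → ∃ p, F ∈ R p) → (∀ F, Far v ε F → ∀ p, F ∉ R p) →
        (2 : ℝ) ^ ((n : ℝ) / 50) ≤ q) ∧
      (∀ (z : ℕ) (C : Circuit m z) (root : Fin z), Decomposable C →
        (∀ F, Satisfiable v F → Accepts C F root) → (∀ F, Far v ε F → ¬ Accepts C F root) →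
        (2 : ℝ) ^ ((n : ℝ) / 100) ≤ z + 1) := by
  refine ⟨1 / (96 * t3 : ℝ), 3 * (32 * tt), ?_, fun n hn => ?_⟩
  · have : 0 < t3 := by unfold t3 tt; norm_num
    positivity
  · obtain ⟨v, hv⟩ := exists_spread hn
    have hm : 0 < 3 * (32 * (tt * n)) := by
      unfold tt
      omega
    refine ⟨3 * (32 * (tt * n)), v, by apply le_of_eq; ring, hv.1, ?_, ?_⟩
    · intro q S R hS hR hsat hfar
      have h := cover_bound hn v hv hm S R hS hR (fun p F hF hfarF => hfar F hfarF p hF) hsat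
      rwa [Fintype.card_fin] at h
    · intro z C root hC hsat hfar
      obtain ⟨S, R, hS, hR, hRacc, hcov⟩ := exists_cover hC root (32 * (tt * n))
        (by unfold tt; omega) rfl
      have h := cover_bound hn v hv hm S R (fun p => by
        have := hS p
        omega) hR (fun p F hF hfarF => hfar F hfarF (hRacc p F hF))
        (fun F hF => hcov F (hsat F hF))
      rw [Fintype.card_sum, Fintype.card_prod, Fintype.card_option, Fintype.card_fin] at h
      have h1 : (((z * z + (z + 1) : ℕ)) : ℝ) ≤ ((z : ℝ) + 1) ^ 2 := by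
        push_cast
        nlinarith [(Nat.cast_nonneg z : (0 : ℝ) ≤ z)]
      have h2 : (2 : ℝ) ^ ((n : ℝ) / 50) = ((2 : ℝ) ^ ((n : ℝ) / 100)) ^ 2 := by
        rw [← Real.rpow_natCast, ← Real.rpow_mul (by norm_num)]
        congr 1
        push_cast
        ring
      rw [h2] at h
      exact (pow_le_pow_iff_left₀ (by positivity) (by positivity) two_ne_zero).1 (h.trans h1)

end Pool.Agent.V8H43.RC
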