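import Pool.Agent.V8H43.RC.Ent

set_option autoImplicit false
set_option linter.unusedSectionVars false

/-!
# A few vectors of a large set which are orthogonal to few triples
-/

namespace Pool.Agent.V8H43.RC

open Finset

variable {n : ℕ}

open Classical in
/-- the triples of different coordinates -/
noncomputable def inj (n : ℕ) : Finset (Fin 3 → Fin n) := univ.filter fun a => Function.Injective a

open Classical in
/-- the triples which are orthogonal to all vectors in `Y` -/
noncomputable def orth (Y : Finset (Fin n → ZMod 2)) : Finset (Fin 3 → Fin n) :=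
  (inj n).filter fun a => ∀ y ∈ Y, ev a y = 0

theorem card_inj : ((inj n).card : ℝ) ≤ (n : ℝ) ^ 3 ∧ (n : ℝ) ^ 3 - 3 * (n : ℝ) ^ 2 ≤ (inj n).card := by
  classical
  have h1 : (inj n).card = n.descFactorial 3 := by
    have h2 := Fintype.card_embedding_eq (α := Fin 3) (β := Fin n)
    rw [Fintype.card_fin, Fintype.card_fin] at h2
    rw [← h2, ← Fintype.card_congr (Equiv.subtypeInjectiveEquivEmbedding (Fin 3) (Fin n)),
      Fintype.card_subtype]
    unfold inj
    congr 1
  rw [h1]
  rcases Nat.lt_or_ge n 3 with h | h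
  · rw [Nat.descFactorial_eq_zero_iff_lt.2 h]
    have h2 : (n : ℝ) ≤ 3 := by exact_mod_cast h.le
    have h3 : (0 : ℝ) ≤ n := Nat.cast_nonneg n
    constructor
    · push_cast
      positivity
    · push_cast
      nlinarith [sq_nonneg (n : ℝ)]
  · have h2 : n.descFactorial 3 = (n - 2) * ((n - 1) * n) := by
      simp [Nat.descFactorial]
    rw [h2]
    push_cast [Nat.cast_sub (by omega : 2 ≤ n), Nat.cast_sub (by omega : 1 ≤ n)]
    have h3 : (3 : ℝ) ≤ n := by exact_mod_cast h
    constructor <;> nlinarith [sq_nonneg (n : ℝ)]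

open Classical in
theorem greedy_step (N : Finset (Fin n → ZMod 2)) (hN : N.Nonempty)
    (A : Finset (Fin 3 → Fin n))
    (hA : ∀ a ∈ A, N.card < 2048 * (N.filter fun y => ev a y ≠ 0).card) :
    ∃ y ∈ N, A.card ≤ 2048 * (A.filter fun a => ev a y ≠ 0).card := by
  by_contra hcon
  push Not at hcon
  have h1 : ∑ y ∈ N, 2048 * (A.filter fun a => ev a y ≠ 0).card < ∑ _y ∈ N, A.card :=
    sum_lt_sum_of_nonempty hN hcon
  have h2 : ∑ y ∈ N, 2048 * (A.filter fun a => ev a y ≠ 0).card =
      ∑ a ∈ A, 2048 * (N.filter fun y => ev a y ≠ 0).card := by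
    simp only [← mul_sum, card_filter]
    rw [sum_comm]
  have h3 : ∑ _a ∈ A, N.card ≤ ∑ a ∈ A, 2048 * (N.filter fun y => ev a y ≠ 0).card :=
    sum_le_sum fun a ha => (hA a ha).le
  rw [h2, sum_const, smul_eq_mul] at h1
  rw [sum_const, smul_eq_mul] at h3
  have h4 : A.card * N.card = N.card * A.card := mul_comm _ _
  omega

/-- the number of vectors -/
def tt : ℕ := 230000

open Classical in
theorem greedy (hn : 2000 ≤ n) (N : Finset (Fin n → ZMod 2))
    (hN : (2 : ℝ) ^ (49 / 100 * (n : ℝ)) < N.card) :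
    ∃ Y ⊆ N, Y.card ≤ tt ∧ ((orth Y).card : ℝ) ≤ 4 / 25 * (inj n).card := by
  have hn0 : (2000 : ℝ) ≤ n := by exact_mod_cast hn
  have hNne : N.Nonempty := by
    rw [← card_pos]
    have h1 : (0 : ℝ) < N.card := lt_trans (by positivity) hN
    exact_mod_cast h1
  obtain ⟨G, hG⟩ : ∃ G : Finset (Fin 3 → Fin n),
      G = (inj n).filter fun a => 2048 * (N.filter fun y => ev a y ≠ 0).card ≤ N.card := ⟨_, rfl⟩
  obtain ⟨R, hR1, hR2⟩ := rank_bound N G (by
    intro a ha
    rw [hG, mem_filter] at ha
    exact ha.2)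
  have hR : (R : ℝ) ≤ 13 / 25 * n := by
    have h1 := hN.trans_le hR2
    rw [Real.rpow_lt_rpow_left_iff (by norm_num)] at h1
    linarith
  have hGc : (G.card : ℝ) ≤ 0.140608 * (n : ℝ) ^ 3 + 3 * (n : ℝ) ^ 2 := by
    have h1 : (G.card : ℝ) ≤ (R : ℝ) ^ 3 + 3 * (n : ℝ) ^ 2 := by exact_mod_cast hR1
    have h2 : (R : ℝ) ^ 3 ≤ (13 / 25 * (n : ℝ)) ^ 3 :=
      pow_le_pow_left₀ (Nat.cast_nonneg R) hR 3
    have h3 : (13 / 25 * (n : ℝ)) ^ 3 = 0.140608 * (n : ℝ) ^ 3 := by ring
    linarith
  have hn3 : (0 : ℝ) < (n : ℝ) ^ 3 := by positivity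
  -- the induction
  have hind : ∀ u : ℕ, ∃ Y ⊆ N, Y.card ≤ u ∧
      (((orth Y).card : ℝ) ≤ G.card + 0.009 * (n : ℝ) ^ 3 ∨
        ((orth Y).card : ℝ) + u * (0.009 / 2048 * (n : ℝ) ^ 3) ≤ (n : ℝ) ^ 3) := by
    intro u
    induction u with
    | zero =>
      refine ⟨∅, empty_subset _, by simp, Or.inr ?_⟩
      have h1 : ((orth (∅ : Finset (Fin n → ZMod 2))).card : ℝ) ≤ (inj n).card := by
        exact_mod_cast card_le_card (filter_subset _ _)
      have h2 := (card_inj (n := n)).1
      push_cast
      linarith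
    | succ u ih =>
      obtain ⟨Y, hYN, hYu, h⟩ := ih
      by_cases h1 : ((orth Y).card : ℝ) ≤ G.card + 0.009 * (n : ℝ) ^ 3
      · exact ⟨Y, hYN, by omega, Or.inl h1⟩
      · have h2 := h.resolve_left h1
        push Not at h1
        obtain ⟨A, hA⟩ : ∃ A, A = orth Y \ G := ⟨_, rfl⟩
        have hAc : 0.009 * (n : ℝ) ^ 3 ≤ A.card := by
          have h3 : (orth Y).card ≤ A.card + G.card := by
            rw [hA]
            have := card_le_card_sdiff_add_card (s := orth Y) (t := G)
            omega
          have h4 : ((orth Y).card : ℝ) ≤ A.card + G.card := by exact_mod_cast h3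
          linarith
        obtain ⟨y, hy, hyA⟩ := greedy_step N hNne A (by
          intro a ha
          rw [hA, mem_sdiff, hG, mem_filter] at ha
          have h3 : a ∈ inj n := by
            have := ha.1
            unfold orth at this
            exact (mem_filter.1 this).1
          by_contra hcon
          exact ha.2 ⟨h3, not_lt.1 hcon⟩)
        refine ⟨insert y Y, insert_subset hy hYN, (card_insert_le _ _).trans (by omega), Or.inr ?_⟩
        have h3 : (orth (insert y Y)).card + (A.filter fun a => ev a y ≠ 0).card ≤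
            (orth Y).card := by
          rw [← card_union_of_disjoint]
          · refine card_le_card ?_
            intro a ha
            rw [mem_union] at ha
            rcases ha with ha | ha
            · unfold orth at ha ⊢
              rw [mem_filter] at ha ⊢
              exact ⟨ha.1, fun y' hy' => ha.2 y' (mem_insert_of_mem hy')⟩
            · rw [hA, mem_filter, mem_sdiff] at ha
              exact ha.1.1
          · rw [disjoint_left]
            intro a ha ha'
            unfold orth at ha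
            rw [mem_filter] at ha ha'
            exact ha'.2 (ha.2 y (mem_insert_self y Y))
        have h4 : ((orth (insert y Y)).card : ℝ) + (A.filter fun a => ev a y ≠ 0).card ≤
            (orth Y).card := by exact_mod_cast h3
        have h5 : (A.card : ℝ) ≤ 2048 * (A.filter fun a => ev a y ≠ 0).card := by exact_mod_cast hyA
        push_cast
        linarith
  obtain ⟨Y, hYN, hYt, h⟩ := hind tt
  refine ⟨Y, hYN, hYt, ?_⟩
  have h1 : ((orth Y).card : ℝ) ≤ G.card + 0.009 * (n : ℝ) ^ 3 := by
    rcases h with h | h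
    · exact h
    · have h2 : ((tt : ℕ) : ℝ) * (0.009 / 2048 * (n : ℝ) ^ 3) ≥ (n : ℝ) ^ 3 := by
        unfold tt
        push_cast
        linarith
      have h3 : (0 : ℝ) ≤ G.card := Nat.cast_nonneg _
      linarith
  have h2 := (card_inj (n := n)).2
  have h3 : (2000 : ℝ) * (n : ℝ) ^ 2 ≤ (n : ℝ) ^ 3 := by
    have : (n : ℝ) ^ 3 = n * (n : ℝ) ^ 2 := by ring
    rw [this]
    exact mul_le_mul_of_nonneg_right hn0 (by positivity)
  linarith

end Pool.Agent.V8H43.RC
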