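import Mathlib

set_option autoImplicit false
set_option linter.unusedSectionVars false

/-!
# Triples of coordinates which are almost orthogonal to many vectors
-/

namespace Pool.Agent.V8H43.RC

open Finset

variable {n : ℕ}

/-- the sum of three coordinates -/
def ev (a : Fin 3 → Fin n) (y : Fin n → ZMod 2) : ZMod 2 := ∑ l, y (a l)

/-- the vector of a triple -/
def vec (a : Fin 3 → Fin n) : Fin n → ZMod 2 := fun i => ∑ l, if a l = i then 1 else 0

theorem vec_dot (a : Fin 3 → Fin n) (y : Fin n → ZMod 2) : vec a ⬝ᵥ y = ev a y := by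
  unfold vec ev dotProduct
  simp only [sum_mul]
  rw [sum_comm]
  refine sum_congr rfl fun l _ => ?_
  rw [sum_eq_single (a l)]
  · rw [if_pos rfl, one_mul]
  · intro i _ hi
    rw [if_neg (Ne.symm hi), zero_mul]
  · intro h
    exact absurd (mem_univ _) h

/-- A subspace is determined by few coordinates. -/
theorem exists_coords (W : Submodule (ZMod 2) (Fin n → ZMod 2)) :
    ∃ P : Finset (Fin n), P.card ≤ Module.finrank (ZMod 2) W ∧
      ∀ w ∈ W, (∀ i ∈ P, w i = 0) → w = 0 := by
  classical
  obtain ⟨P, hP, hmin⟩ := exists_min_image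
    ((univ : Finset (Fin n)).powerset.filter fun P => ∀ w ∈ W, (∀ i ∈ P, w i = 0) → w = 0)
    Finset.card ⟨univ, by
      rw [mem_filter]
      exact ⟨by simp, fun w _ h => funext fun i => h i (mem_univ i)⟩⟩
  rw [mem_filter] at hP
  refine ⟨P, ?_, hP.2⟩
  -- for every `i ∈ P` there is a vector of `W` which is a unit vector on `P`
  have hex : ∀ i : P, ∃ w ∈ W, w i.1 ≠ 0 ∧ ∀ j ∈ P, j ≠ i.1 → w j = 0 := by
    intro i
    by_contra hcon
    push Not at hcon
    have h1 : P.erase i.1 ∈ (univ : Finset (Fin n)).powerset.filter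
        fun P => ∀ w ∈ W, (∀ i ∈ P, w i = 0) → w = 0 := by
      rw [mem_filter]
      refine ⟨by simp, fun w hw h => ?_⟩
      refine hP.2 w hw fun j hj => ?_
      by_cases hji : j = i.1
      · by_contra hne
        rw [hji] at hne
        obtain ⟨j', hj', hne', h0⟩ := hcon w hw hne
        exact h0 (h j' (mem_erase.2 ⟨hne', hj'⟩))
      · exact h j (mem_erase.2 ⟨hji, hj⟩)
    have h2 := hmin _ h1
    have h3 := card_erase_lt_of_mem i.2
    omega
  choose w hw hw1 hw0 using hex
  have hli : LinearIndependent (ZMod 2) (fun i : P => (⟨w i, hw i⟩ : W)) := by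
    rw [Fintype.linearIndependent_iff]
    intro g hg i
    have h1 := congrArg (fun v : W => (v : Fin n → ZMod 2) i.1) hg
    simp only [Submodule.coe_sum, Submodule.coe_smul, Finset.sum_apply, Pi.smul_apply,
      smul_eq_mul, Submodule.coe_zero, Pi.zero_apply] at h1
    rw [sum_eq_single i] at h1
    · rcases mul_eq_zero.1 h1 with h2 | h2
      · exact h2
      · exact absurd h2 (hw1 i)
    · intro j _ hji
      rw [hw0 j i.1 i.2 (fun h => hji (Subtype.ext h.symm)), mul_zero]
    · intro h
      exact absurd (mem_univ _) h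
  have := hli.fintype_card_le_finrank
  rwa [Fintype.card_coe] at this

open Classical in
/-- Few triples lie in a small subspace. -/
theorem card_vec_le (W : Submodule (ZMod 2) (Fin n → ZMod 2)) (G : Finset (Fin 3 → Fin n))
    (hG : ∀ a ∈ G, vec a ∈ W) : G.card ≤ (Module.finrank (ZMod 2) W) ^ 3 + 3 * n ^ 2 := by
  obtain ⟨P, hPc, hP⟩ := exists_coords W
  have hsub : G ⊆ (Fintype.piFinset fun _ : Fin 3 => P) ∪
      (univ : Finset (Fin 3)).biUnion fun l => G.filter fun a => a l ∉ P := by
    intro a ha
    rw [mem_union]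
    by_cases h : ∀ l, a l ∈ P
    · exact Or.inl (Fintype.mem_piFinset.2 h)
    · push Not at h
      obtain ⟨l, hl⟩ := h
      exact Or.inr (mem_biUnion.2 ⟨l, mem_univ l, mem_filter.2 ⟨ha, hl⟩⟩)
  have hl : ∀ l : Fin 3, (G.filter fun a => a l ∉ P).card ≤ n ^ 2 := by
    intro l
    have h1 : (univ : Finset ({j : Fin 3 // j ≠ l} → Fin n)).card = n ^ 2 := by
      rw [card_univ, Fintype.card_fun, Fintype.card_fin]
      congr 1
      rw [Fintype.card_subtype_compl]
      simp
    rw [← h1]
    refine card_le_card_of_injOn (fun a j => a j.1) (fun _ _ => mem_univ _) ?_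
    intro a ha b hb hab
    rw [mem_coe, mem_filter] at ha hb
    have hab' : ∀ j, j ≠ l → a j = b j := fun j hj => congrFun hab ⟨j, hj⟩
    have hsum : vec a + vec b = fun i => (if a l = i then 1 else 0) + (if b l = i then 1 else 0) := by
      funext i
      show ∑ j, (if a j = i then 1 else 0) + ∑ j, (if b j = i then (1 : ZMod 2) else 0) = _
      rw [← sum_add_distrib, sum_eq_single l]
      · intro j _ hj
        rw [hab' j hj]
        have : ∀ c : ZMod 2, c + c = 0 := by decide
        exact this _
      · intro h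
        exact absurd (mem_univ _) h
    have h0 : vec a + vec b = 0 := by
      refine hP _ (W.add_mem (hG a ha.1) (hG b hb.1)) fun i hi => ?_
      rw [hsum]
      show (if a l = i then (1 : ZMod 2) else 0) + (if b l = i then 1 else 0) = 0
      rw [if_neg (fun h => ha.2 (by rw [h]; exact hi)), if_neg (fun h => hb.2 (by rw [h]; exact hi)),
        add_zero]
    have hal : a l = b l := by
      by_contra hne
      have h1 := congrFun h0 (a l)
      rw [hsum] at h1
      simp only [if_true, Pi.zero_apply] at h1
      rw [if_neg (fun h => hne h.symm), add_zero] at h1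
      exact one_ne_zero h1
    funext j
    by_cases hj : j = l
    · rw [hj, hal]
    · exact hab' j hj
  refine (card_le_card hsub).trans ((card_union_le _ _).trans ?_)
  refine Nat.add_le_add ?_ ?_
  · rw [Fintype.card_piFinset, prod_const, card_univ, Fintype.card_fin]
    exact Nat.pow_le_pow_left hPc 3
  · refine card_biUnion_le.trans ((sum_le_sum fun l _ => hl l).trans ?_)
    rw [sum_const, card_univ, Fintype.card_fin, smul_eq_mul]

end Pool.Agent.V8H43.RC
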