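import Pool.Agent.V8H43.RC.Greedy

set_option autoImplicit false
set_option linter.unusedSectionVars false

/-!
# Random triples
-/

namespace Pool.Agent.V8H43.RC

open Finset

variable {n : ℕ}

open Classical in
/-- Few sequences hit a set too often. -/
theorem card_hits (U O : Finset (Fin 3 → Fin n)) (hO : O ⊆ U) (m0 : ℕ)
    (hp : (O.card : ℝ) ≤ 4 / 25 * U.card) :
    (((Fintype.piFinset fun _ : Fin (4 * m0) => U).filter fun v =>
      m0 ≤ (univ.filter fun j => v j ∈ O).card).card : ℝ) * 2 ^ m0 ≤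
      (29 / 25 : ℝ) ^ (4 * m0) * (U.card : ℝ) ^ (4 * m0) := by
  have h1 : ∑ v ∈ Fintype.piFinset (fun _ : Fin (4 * m0) => U),
      (2 : ℝ) ^ (univ.filter fun j => v j ∈ O).card = ((U.card : ℝ) + O.card) ^ (4 * m0) := by
    have h2 : ∀ v : Fin (4 * m0) → Fin 3 → Fin n, (2 : ℝ) ^ (univ.filter fun j => v j ∈ O).card =
        ∏ j, (if v j ∈ O then (2 : ℝ) else 1) := by
      intro v
      rw [prod_ite, prod_const, prod_const_one, mul_one]
    simp only [h2]
    rw [← Finset.prod_univ_sum (fun _ : Fin (4 * m0) => U) (fun _ a => if a ∈ O then (2 : ℝ) else 1)]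
    rw [prod_const, card_univ, Fintype.card_fin]
    congr 1
    have h3 : ∀ a ∈ U, (if a ∈ O then (2 : ℝ) else 1) = 1 + if a ∈ O then 1 else 0 := by
      intro a _
      split_ifs <;> norm_num
    rw [sum_congr rfl h3, sum_add_distrib, sum_const, nsmul_eq_mul, mul_one]
    congr 1
    rw [← sum_filter, sum_const, nsmul_eq_mul, mul_one, filter_mem_eq_inter,
      inter_eq_right.2 hO]
  calc (((Fintype.piFinset fun _ : Fin (4 * m0) => U).filter fun v =>
      m0 ≤ (univ.filter fun j => v j ∈ O).card).card : ℝ) * 2 ^ m0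
      = ∑ v ∈ (Fintype.piFinset fun _ : Fin (4 * m0) => U).filter fun v =>
          m0 ≤ (univ.filter fun j => v j ∈ O).card, (2 : ℝ) ^ m0 := by
        rw [sum_const, nsmul_eq_mul]
    _ ≤ ∑ v ∈ (Fintype.piFinset fun _ : Fin (4 * m0) => U).filter fun v =>
          m0 ≤ (univ.filter fun j => v j ∈ O).card, (2 : ℝ) ^ (univ.filter fun j => v j ∈ O).card := by
        refine sum_le_sum fun v hv => ?_
        exact pow_le_pow_right₀ (by norm_num) (mem_filter.1 hv).2
    _ ≤ ∑ v ∈ Fintype.piFinset (fun _ : Fin (4 * m0) => U),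
          (2 : ℝ) ^ (univ.filter fun j => v j ∈ O).card :=
        sum_le_sum_of_subset_of_nonneg (filter_subset _ _) fun _ _ _ => by positivity
    _ = ((U.card : ℝ) + O.card) ^ (4 * m0) := h1
    _ ≤ (29 / 25 * (U.card : ℝ)) ^ (4 * m0) := by
        refine pow_le_pow_left₀ (by positivity) (by linarith) _
    _ = _ := mul_pow _ _ _

open Classical in
/-- A sequence of triples which hits all sets of orthogonal triples rarely. -/
theorem exists_triples (hn : 2000 ≤ n) (t : ℕ) (ht : 1 ≤ t) :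
    ∃ v : Fin (4 * (8 * (t * n))) → Fin 3 → Fin n, (∀ j, v j ∈ inj n) ∧
      ∀ y : Fin t → Fin n → ZMod 2,
        ((orth (univ.image y)).card : ℝ) ≤ 4 / 25 * (inj n).card →
        (univ.filter fun j => v j ∈ orth (univ.image y)).card < 8 * (t * n) := by
  obtain ⟨m0, hm0⟩ : ∃ m0, m0 = 8 * (t * n) := ⟨_, rfl⟩
  rw [← hm0]
  by_contra hcon
  push Not at hcon
  obtain ⟨U, hU⟩ : ∃ U, U = inj n := ⟨_, rfl⟩
  have hUpos : (0 : ℝ) < U.card := by
    have h1 := (card_inj (n := n)).2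
    have hn0 : (2000 : ℝ) ≤ n := by exact_mod_cast hn
    have h3 : (2000 : ℝ) * (n : ℝ) ^ 2 ≤ (n : ℝ) ^ 3 := by
      have : (n : ℝ) ^ 3 = n * (n : ℝ) ^ 2 := by ring
      rw [this]
      exact mul_le_mul_of_nonneg_right hn0 (by positivity)
    have h4 : (0 : ℝ) < (n : ℝ) ^ 2 := by positivity
    rw [hU]
    linarith
  obtain ⟨Yb, hYb⟩ : ∃ Yb : Finset (Fin t → Fin n → ZMod 2), Yb = univ.filter fun y =>
      ((orth (univ.image y)).card : ℝ) ≤ 4 / 25 * (inj n).card := ⟨_, rfl⟩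
  have hcov : (Fintype.piFinset fun _ : Fin (4 * m0) => U) ⊆
      Yb.biUnion fun y => (Fintype.piFinset fun _ : Fin (4 * m0) => U).filter fun v =>
        m0 ≤ (univ.filter fun j => v j ∈ orth (univ.image y)).card := by
    intro v hv
    rw [Fintype.mem_piFinset] at hv
    obtain ⟨y, hy1, hy2⟩ := hcon v (fun j => by rw [← hU]; exact hv j)
    rw [mem_biUnion]
    refine ⟨y, by rw [hYb]; exact mem_filter.2 ⟨mem_univ y, hy1⟩, mem_filter.2
      ⟨Fintype.mem_piFinset.2 hv, hy2⟩⟩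
  have h1 : ((U.card : ℝ)) ^ (4 * m0) ≤ ∑ y ∈ Yb,
      (((Fintype.piFinset fun _ : Fin (4 * m0) => U).filter fun v =>
        m0 ≤ (univ.filter fun j => v j ∈ orth (univ.image y)).card).card : ℝ) := by
    have h2 := (card_le_card hcov).trans card_biUnion_le
    rw [Fintype.card_piFinset, prod_const, card_univ, Fintype.card_fin] at h2
    exact_mod_cast h2
  have h2 : ∀ y ∈ Yb, (((Fintype.piFinset fun _ : Fin (4 * m0) => U).filter fun v =>
        m0 ≤ (univ.filter fun j => v j ∈ orth (univ.image y)).card).card : ℝ) * 2 ^ m0 ≤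
      (29 / 25 : ℝ) ^ (4 * m0) * (U.card : ℝ) ^ (4 * m0) := by
    intro y hy
    rw [hYb, mem_filter] at hy
    refine card_hits U (orth (univ.image y)) ?_ m0 (by rw [hU]; exact hy.2)
    rw [hU]
    exact filter_subset _ _
  have h3 : ((U.card : ℝ)) ^ (4 * m0) * 2 ^ m0 ≤
      (2 : ℝ) ^ (t * n) * ((29 / 25 : ℝ) ^ (4 * m0) * (U.card : ℝ) ^ (4 * m0)) := by
    calc ((U.card : ℝ)) ^ (4 * m0) * 2 ^ m0 ≤ (∑ y ∈ Yb,
          (((Fintype.piFinset fun _ : Fin (4 * m0) => U).filter fun v =>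
          m0 ≤ (univ.filter fun j => v j ∈ orth (univ.image y)).card).card : ℝ)) * 2 ^ m0 :=
          mul_le_mul_of_nonneg_right h1 (by positivity)
      _ ≤ ∑ y ∈ Yb, (29 / 25 : ℝ) ^ (4 * m0) * (U.card : ℝ) ^ (4 * m0) := by
          rw [sum_mul]
          exact sum_le_sum h2
      _ = (Yb.card : ℝ) * ((29 / 25 : ℝ) ^ (4 * m0) * (U.card : ℝ) ^ (4 * m0)) := by
          rw [sum_const, nsmul_eq_mul]
      _ ≤ _ := by
          refine mul_le_mul_of_nonneg_right ?_ (by positivity)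
          have h4 := card_le_univ Yb
          rw [Fintype.card_fun, Fintype.card_fun, ZMod.card, Fintype.card_fin, Fintype.card_fin,
            ← pow_mul, mul_comm n t] at h4
          exact_mod_cast h4
  have hUp : (0 : ℝ) < (U.card : ℝ) ^ (4 * m0) := by positivity
  have h4 : (2 : ℝ) ^ m0 ≤ 2 ^ (t * n) * (29 / 25 : ℝ) ^ (4 * m0) := by
    refine le_of_mul_le_mul_left ?_ hUp
    calc (U.card : ℝ) ^ (4 * m0) * 2 ^ m0 ≤ _ := h3
      _ = _ := by ring
  have h5 : (2 : ℝ) ^ m0 = (2 ^ 8) ^ (t * n) := by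
    rw [hm0, pow_mul]
  have h6 : (29 / 25 : ℝ) ^ (4 * m0) = ((29 / 25 : ℝ) ^ 32) ^ (t * n) := by
    rw [hm0, ← pow_mul]
    congr 1
    ring
  rw [h5, h6, ← mul_pow] at h4
  have htn : t * n ≠ 0 := by
    have : 0 < t * n := Nat.mul_pos ht (by omega)
    omega
  have h7 := (pow_le_pow_iff_left₀ (by positivity) (by positivity) htn).1 h4
  norm_num at h7

end Pool.Agent.V8H43.RC
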